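import Mathlib
import Pool.Agent.AffFib.Grass

/-!
The singular set of a holomorphic affine fibration is a union of affine spaces of the dimension of the fibres.
-/

set_option autoImplicit false

open Module Topology

namespace Pool.Agent.Results.MP_0b4183_an.SingularPlanes

variable {n m : ℕ}

/-- The rank of the derivative of `Γ` at `ξ`. -/
noncomputable def rank (Γ : EuclideanSpace ℂ (Fin n) → EuclideanSpace ℂ (Fin m))
    (ξ : EuclideanSpace ℂ (Fin n)) : ℕ :=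
  finrank ℂ (LinearMap.range (fderiv ℂ Γ ξ : EuclideanSpace ℂ (Fin n) →ₗ[ℂ] EuclideanSpace ℂ (Fin m)))

/-- The kernel of the derivative of `Γ` at `ξ`. -/
noncomputable def kernel (Γ : EuclideanSpace ℂ (Fin n) → EuclideanSpace ℂ (Fin m))
    (ξ : EuclideanSpace ℂ (Fin n)) : Submodule ℂ (EuclideanSpace ℂ (Fin n)) :=
  LinearMap.ker (fderiv ℂ Γ ξ : EuclideanSpace ℂ (Fin n) →ₗ[ℂ] EuclideanSpace ℂ (Fin m))

/-- The essential singularities: the points `ξ` of `Ω` without a neighbourhood `U` and a continuous map `W` from `U`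
to the Grassmannian of `(n - k)`-dimensional subspaces (whose topology is that of the orthogonal projections) which
agrees with the kernel of the derivative at the points of rank `k`. -/
def sing (Ω : Set (EuclideanSpace ℂ (Fin n)))
    (Γ : EuclideanSpace ℂ (Fin n) → EuclideanSpace ℂ (Fin m)) (k : ℕ) :
    Set (EuclideanSpace ℂ (Fin n)) :=
  {ξ | ξ ∈ Ω ∧ ¬ ∃ U : Set (EuclideanSpace ℂ (Fin n)), IsOpen U ∧ ξ ∈ U ∧ U ⊆ Ω ∧
    ∃ W : EuclideanSpace ℂ (Fin n) → Submodule ℂ (EuclideanSpace ℂ (Fin n)),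
      (∀ η ∈ U, finrank ℂ (W η) = n - k) ∧ ContinuousOn (fun η => (W η).starProjection) U ∧
        ∀ η ∈ U, rank Γ η = k → W η = kernel Γ η}

theorem result {k : ℕ} (hk : k < n) {Ω : Set (EuclideanSpace ℂ (Fin n))} (hΩ : IsOpen Ω) (hc : IsConnected Ω)
    {Γ : EuclideanSpace ℂ (Fin n) → EuclideanSpace ℂ (Fin m)} (hΓ : AnalyticOnNhd ℂ Γ Ω)
    (hle : ∀ ξ ∈ Ω, rank Γ ξ ≤ k) (hex : ∃ ξ ∈ Ω, rank Γ ξ = k)
    (hlevel : ∀ ξ ∈ Ω, rank Γ ξ = k → ∃ V : Submodule ℂ (EuclideanSpace ℂ (Fin n)),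
      finrank ℂ V = n - k ∧ ∀ η ∈ Ω, Γ η = Γ ξ ↔ η - ξ ∈ V) :
    ∀ ξ ∈ sing Ω Γ k, ∃ V : Submodule ℂ (EuclideanSpace ℂ (Fin n)),
      finrank ℂ V = n - k ∧ ∀ᶠ η in 𝓝 ξ, η - ξ ∈ V → η ∈ sing Ω Γ k := by
  have hfr : finrank ℂ (EuclideanSpace ℂ (Fin n)) = n := by simp
  have hAF : Pool.Agent.AffFib.AF Ω Γ k := by
    refine ⟨hΩ, hc.isPreconnected, hΓ, hle, hex, ?_⟩
    intro ξ hξ hrξ η hη
    obtain ⟨V, hV, hiff⟩ := hlevel ξ hξ hrξ
    have hVK : V ≤ Pool.Agent.AffFib.K Γ ξ := by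
      intro v hv
      rw [Pool.Agent.AffFib.mem_K]
      have h1 : HasDerivAt (fun s : ℂ => ξ + s • v) v 0 := by
        simpa using ((hasDerivAt_id (0 : ℂ)).smul_const v).const_add ξ
      have h2 : HasFDerivAt Γ (fderiv ℂ Γ ξ) (ξ + (0 : ℂ) • v) := by
        simpa using (hΓ ξ hξ).differentiableAt.hasFDerivAt
      have h3 : HasDerivAt (Γ ∘ fun s : ℂ => ξ + s • v) (fderiv ℂ Γ ξ v) 0 :=
        HasFDerivAt.comp_hasDerivAt (0 : ℂ) h2 h1
      have h4 : (Γ ∘ fun s : ℂ => ξ + s • v) =ᶠ[𝓝 0] fun _ => Γ ξ := by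
        have h5 : Filter.Tendsto (fun s : ℂ => ξ + s • v) (𝓝 0) (𝓝 ξ) := by
          simpa using h1.continuousAt.tendsto
        filter_upwards [h5 (hΩ.mem_nhds hξ)] with s hs
        refine (hiff _ hs).mpr ?_
        rw [add_sub_cancel_left]
        exact V.smul_mem s hv
      have h6 : HasDerivAt (Γ ∘ fun s : ℂ => ξ + s • v) 0 0 :=
        (hasDerivAt_const (0 : ℂ) (Γ ξ)).congr_of_eventuallyEq h4
      exact h3.unique h6
    have hfK := Pool.Agent.AffFib.finrank_K Γ ξ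
    have hrξ' : Pool.Agent.AffFib.rk Γ ξ = k := hrξ
    rw [hrξ', hfr] at hfK
    have hVeq : V = Pool.Agent.AffFib.K Γ ξ := by
      apply Submodule.eq_of_le_of_finrank_eq hVK
      rw [hV]
      omega
    rw [← hVeq]
    exact hiff η hη
  have hmem : ∀ η, η ∈ sing Ω Γ k ↔ η ∈ Ω ∧ ¬ Pool.Agent.AffFib.Reg Ω Γ k (n - k) η := by
    intro η
    rw [← Pool.Agent.AffFib.ext_iff_reg]
    exact Iff.rfl
  intro ξ hξ
  obtain ⟨hξΩ, hξs⟩ := (hmem ξ).mp hξ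
  obtain ⟨V, hV, hev⟩ := Pool.Agent.AffFib.plane hAF (by rw [hfr]) hξΩ hξs
  exact ⟨V, hV, hev.mono fun η h hη => (hmem η).mpr (h hη)⟩

end Pool.Agent.Results.MP_0b4183_an.SingularPlanes
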